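import Pool.Agent.Y957.MC.Spec3
import Pool.Agent.Y957.MC.Flw1
import Pool.Agent.Y312.MC.Flw3
import Pool.Agent.Y614.MC.Expg
import Pool.Agent.Y571.MC.Goodg
import Pool.Agent.Y571.MC.Poly

/-!
MC3-MUL (helper256 for helper957, MP_9721b5_an): several flows with a common time parameter, smoothing and
error control.
-/

set_option autoImplicit false

namespace Pool.Agent.Y256.MC

open MeasureTheory Filter Finset Pool.Agent.Y957.MC
open Pool.Agent.Y312.MC (smo_meas smo_bdd smo_L1 meas_orb int_bdd flowInv_le ii_orb)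

universe u

/-- the sequence of times `n` -/
theorem good_id : Good (fun n : ℕ => (n : ℝ)) := by
  have h := Pool.Agent.Y571.MC.goodg Pool.Agent.Y614.MC.expg (fun x : ℝ => x ^ (1 : ℝ))
    (Pool.Agent.Y571.MC.pow 1 one_pos)
  simpa only [Real.rpow_one] using h

section flows

variable {X : Type u} [mX : MeasurableSpace X] {μ : Measure X}

/-- a flow at another speed -/
theorem isFlow_mul {τ : ℝ → X → X} (h : IsFlow μ τ) (c : ℝ) : IsFlow μ (fun t => τ (c * t)) := by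
  refine ⟨?_, fun x => by simp [h.zero], fun s t x => ?_, fun t => h.mp (c * t)⟩
  · exact h.meas.comp ((measurable_fst.const_mul c).prodMk measurable_snd)
  · simp only [mul_add]
    exact h.add _ _ _

end flows

/-- products of numbers of absolute value at most one -/
theorem prod_diff {ι : Type*} (s : Finset ι) (a b : ι → ℝ) (ha : ∀ i ∈ s, |a i| ≤ 1) (hb : ∀ i ∈ s, |b i| ≤ 1) :
    |∏ i ∈ s, a i - ∏ i ∈ s, b i| ≤ ∑ i ∈ s, |a i - b i| := by
  classical
  induction s using Finset.induction_on with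
  | empty => simp
  | insert k s hk ih =>
    rw [Finset.prod_insert hk, Finset.prod_insert hk, Finset.sum_insert hk]
    have h1 := ih (fun i hi => ha i (Finset.mem_insert_of_mem hi)) (fun i hi => hb i (Finset.mem_insert_of_mem hi))
    have h2 := ha k (Finset.mem_insert_self _ _)
    have h3 : |∏ i ∈ s, b i| ≤ 1 := by
      rw [Finset.abs_prod]
      exact Finset.prod_le_one (fun i _ => abs_nonneg _) (fun i hi => hb i (Finset.mem_insert_of_mem hi))
    have e : a k * ∏ i ∈ s, a i - b k * ∏ i ∈ s, b i =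
        a k * (∏ i ∈ s, a i - ∏ i ∈ s, b i) + (a k - b k) * ∏ i ∈ s, b i := by ring
    rw [e]
    calc |a k * (∏ i ∈ s, a i - ∏ i ∈ s, b i) + (a k - b k) * ∏ i ∈ s, b i|
        ≤ |a k * (∏ i ∈ s, a i - ∏ i ∈ s, b i)| + |(a k - b k) * ∏ i ∈ s, b i| := abs_add_le _ _
      _ = |a k| * |∏ i ∈ s, a i - ∏ i ∈ s, b i| + |a k - b k| * |∏ i ∈ s, b i| := by rw [abs_mul, abs_mul]
      _ ≤ 1 * (∑ i ∈ s, |a i - b i|) + |a k - b k| * 1 := by gcongr
      _ = _ := by ring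

theorem abs_prod_le_one {ι : Type*} (s : Finset ι) (a : ι → ℝ) (ha : ∀ i ∈ s, |a i| ≤ 1) : |∏ i ∈ s, a i| ≤ 1 := by
  rw [Finset.abs_prod]
  exact Finset.prod_le_one (fun i _ => abs_nonneg _) ha

/-- modulus of continuity of a Lipschitz function -/
theorem mod_of_lip {F : ℝ → ℂ} {L : ℝ} (hL : 0 ≤ L) (hF : ∀ v w, ‖F v - F w‖ ≤ L * |v - w|) (Λ : ℝ) (hΛ : 1 ≤ Λ) :
    ∃ C : ℝ, ∀ M : ℝ, 1 ≤ M → Mod Λ F C M := by
  refine ⟨L * (2 * Real.exp Λ) * Λ, fun M hM t ht0 ht1 => ?_⟩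
  have h1 : ‖∫ s in (0 : ℝ)..Λ, ‖F (M * Real.exp (s + t)) - F (M * Real.exp s)‖‖ ≤
      (L * (2 * Real.exp Λ) * M * t) * |Λ - 0| := by
    refine intervalIntegral.norm_integral_le_of_norm_le_const fun s hs => ?_
    rw [Set.uIoc_of_le (by linarith)] at hs
    rw [norm_norm]
    have h2 := hF (M * Real.exp (s + t)) (M * Real.exp s)
    have h3 : |M * Real.exp (s + t) - M * Real.exp s| ≤ M * Real.exp Λ * (2 * t) := by
      have e2 : M * Real.exp (s + t) - M * Real.exp s = M * Real.exp s * (Real.exp t - 1) := by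
        rw [Real.exp_add]; ring
      have h4 : Real.exp t - 1 ≤ 2 * t := by
        have h5 : |Real.exp t - 1 - t| ≤ t ^ 2 := Real.abs_exp_sub_one_sub_id_le (by rw [abs_of_pos ht0]; exact ht1)
        have h6 := (abs_le.mp h5).2
        nlinarith
      have h5 : 0 ≤ Real.exp t - 1 := by
        have := Real.add_one_le_exp t; linarith
      rw [e2, abs_of_nonneg (by positivity)]
      have h6 : Real.exp s ≤ Real.exp Λ := Real.exp_le_exp.mpr hs.2
      gcongr
    calc ‖F (M * Real.exp (s + t)) - F (M * Real.exp s)‖ ≤ L * (M * Real.exp Λ * (2 * t)) :=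
          h2.trans (by gcongr)
      _ = _ := by ring
  rw [sub_zero, abs_of_pos (by linarith : 0 < Λ)] at h1
  calc _ ≤ ‖∫ s in (0 : ℝ)..Λ, ‖F (M * Real.exp (s + t)) - F (M * Real.exp s)‖‖ := Real.le_norm_self _
    _ ≤ _ := h1
    _ = _ := by ring

/-- one Lipschitz function -/
theorem one_lip (h1 : S_DET) (h2 : S_RIE) {B : ℕ → ℂ} {b : ℂ} (hB : PSav B b) (hBb : ∃ C : ℝ, ∀ n, ‖B n‖ ≤ C)
    {G : ℝ → ℝ} {L : ℝ} (hL : 0 ≤ L) (hG1 : ∀ v, |G v| ≤ 1) (hG : ∀ v w, |G v - G w| ≤ L * |v - w|) :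
    ∀ᵐ a : ℝ ∂(volume.restrict (Set.Ioi (0 : ℝ))),
      Tendsto (fun N : ℕ => (1 / (N : ℂ)) * ∑ n ∈ Icc 1 N, B n * ((G (a * n) : ℝ) : ℂ) -
        b * (((1 / (a * N)) * ∫ v in (0 : ℝ)..(a * N), G v : ℝ) : ℂ)) atTop (nhds 0) := by
  set F : ℝ → ℂ := fun v => ((G v : ℝ) : ℂ) with hF
  have hF1 : ∀ v, ‖F v‖ ≤ 1 := fun v => by
    simp only [hF]; rw [Complex.norm_real, Real.norm_eq_abs]; exact hG1 v
  have hF2 : ∀ v w, ‖F v - F w‖ ≤ L * |v - w| := fun v w => by
    have e : F v - F w = ((G v - G w : ℝ) : ℂ) := by simp only [hF]; push_cast; ring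
    rw [e, Complex.norm_real, Real.norm_eq_abs]
    exact hG v w
  have hGc : Continuous G := by
    have : LipschitzWith (Real.toNNReal L) G := by
      apply LipschitzWith.of_dist_le_mul
      intro v w
      rw [Real.dist_eq, Real.dist_eq, Real.coe_toNNReal _ hL]
      exact hG v w
    exact this.continuous
  have hFm : Measurable F := (Complex.continuous_ofReal.comp hGc).measurable
  filter_upwards [h1 B b hB hBb F hFm hF1 (mod_of_lip hL hF2), h2 F L hF1 hF2] with a ha1 ha2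
  have h3 := ha1.add (ha2.const_mul b)
  rw [mul_zero, add_zero] at h3
  refine h3.congr fun N => ?_
  have e1 : ∑ n ∈ Icc 1 N, (B n - b) * F (a * n) = ∑ n ∈ Icc 1 N, B n * F (a * n) - b * ∑ n ∈ Icc 1 N, F (a * n) := by
    rw [Finset.mul_sum, ← Finset.sum_sub_distrib]
    exact Finset.sum_congr rfl fun n _ => by ring
  have e2 : ∫ v in (0 : ℝ)..(a * N), F v = ((∫ v in (0 : ℝ)..(a * N), G v : ℝ) : ℂ) := by
    simp only [hF]
    rw [intervalIntegral.integral_ofReal]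
  rw [e1, e2]
  simp only [hF]
  push_cast
  ring

/-- the case of functions bounded by one and speeds one -/
theorem core (h1 : S_DET) (h2 : S_RIE) (h3 : S_FLW2.{u}) (h4 : S_FLWB.{u}) (B : ℕ → ℂ) (b : ℂ) (hB : PSav B b)
    (hBb : ∃ C : ℝ, ∀ n, ‖B n‖ ≤ C)
    (X : Type u) [MeasurableSpace X] (μ : Measure X) [IsProbabilityMeasure μ] (m : ℕ) (τ : Fin m → ℝ → X → X)
    (f : Fin m → X → ℝ) (hτ : ∀ j, IsFlow μ (τ j)) (hf : ∀ j, Measurable (f j))
    (hf1 : ∀ j x, |f j x| ≤ 1) :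
    ∀ᵐ x ∂μ, ∀ᵐ a : ℝ ∂(volume.restrict (Set.Ioi (0 : ℝ))),
      Tendsto (fun N : ℕ => (1 / (N : ℂ)) * ∑ n ∈ Icc 1 N, B n * ((∏ j, f j (τ j (a * n) x) : ℝ) : ℂ) -
        b * (((1 / (a * N)) * ∫ v in (0 : ℝ)..(a * N), ∏ j, f j (τ j v x) : ℝ) : ℂ)) atTop (nhds 0) := by
  obtain ⟨CB', hCB'⟩ := hBb
  set CB : ℝ := |CB'| + 1 with hCBdef
  have hCB0 : 0 < CB := by positivity
  have hCB : ∀ n, ‖B n‖ ≤ CB := fun n => (hCB' n).trans ((le_abs_self _).trans (by linarith))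
  obtain ⟨K, hK, hE⟩ := h3 _ good_id
  have hpos : ∀ i : ℕ, 0 < 1 / ((i : ℝ) + 1) := fun i => by positivity
  set g : ℕ → Fin m → X → ℝ := fun i j => smo (τ j) (f j) (1 / ((i : ℝ) + 1)) with hgdef
  have hgm : ∀ i j, Measurable (g i j) := fun i j => smo_meas (hτ j) (hf j) (hpos i)
  have hg1 : ∀ i j x, |g i j x| ≤ 1 := fun i j x => smo_bdd (hf1 j) (hpos i) x
  -- errors
  set e : ℕ → Fin m → X → ℝ := fun i j x => |f j x - g i j x| / 2 with hedef
  have hem : ∀ i j, Measurable (e i j) := fun i j => ((hf j).sub (hgm i j)).abs.div_const _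
  have heb : ∀ i j x, 0 ≤ e i j x ∧ e i j x ≤ 1 := fun i j x => by
    have h5 := abs_sub (f j x) (g i j x)
    have h6 := hf1 j x
    have h7 := hg1 i j x
    refine ⟨by positivity, ?_⟩
    simp only [hedef]
    linarith
  have heb' : ∀ i j x, |e i j x| ≤ 1 := fun i j x => by
    rw [abs_of_nonneg (heb i j x).1]; exact (heb i j x).2
  have heint : ∀ j, Tendsto (fun i => ∫ x, e i j x ∂μ) atTop (nhds 0) := by
    intro j
    have h5 := (smo_L1 (hτ j) (hf j) (hf1 j)).div_const 2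
    rw [zero_div] at h5
    refine h5.congr fun i => ?_
    simp only [hedef, hgdef, integral_div]
  -- the sum of the conditional expectations
  set Ψ : ℕ → X → ℝ := fun i x => ∑ j, (μ[e i j | flowInv (τ j)]) x with hΨ
  have hΨ0 : ∀ i, 0 ≤ᵐ[μ] Ψ i := by
    intro i
    have : ∀ᵐ x ∂μ, ∀ j, 0 ≤ (μ[e i j | flowInv (τ j)]) x := by
      rw [ae_all_iff]
      intro j
      exact condExp_nonneg (ae_of_all _ fun x => (heb i j x).1)
    filter_upwards [this] with x hx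
    exact Finset.sum_nonneg fun j _ => hx j
  have hΨi : ∀ i, Integrable (Ψ i) μ := fun i => integrable_finset_sum _ fun j _ => integrable_condExp
  have hΨint : ∀ i, ∫ x, Ψ i x ∂μ = ∑ j, ∫ x, e i j x ∂μ := by
    intro i
    simp only [hΨ]
    rw [integral_finset_sum _ fun j _ => integrable_condExp]
    exact Finset.sum_congr rfl fun j _ => integral_condExp (flowInv_le (τ j))
  have hΨlim : Tendsto (fun i => ∫ x, Ψ i x ∂μ) atTop (nhds 0) := by
    simp only [hΨint]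
    have := tendsto_finset_sum (Finset.univ : Finset (Fin m)) fun j _ => heint j
    simpa using this
  have hinf : ∀ᵐ x ∂μ, ∀ k : ℕ, ∃ i, Ψ i x < 1 / ((k : ℝ) + 1) := by
    rw [ae_all_iff]
    intro k
    have hk : 0 < 1 / ((k : ℝ) + 1) := hpos k
    have hmk : ∀ i, 1 / ((k : ℝ) + 1) * μ.real {x | 1 / ((k : ℝ) + 1) ≤ Ψ i x} ≤ ∫ x, Ψ i x ∂μ :=
      fun i => mul_meas_ge_le_integral_of_nonneg (hΨ0 i) (hΨi i) (1 / ((k : ℝ) + 1))
    have hbad : μ.real {x | ¬ ∃ i, Ψ i x < 1 / ((k : ℝ) + 1)} ≤ 0 := by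
      have e3 : ∀ i, 1 / ((k : ℝ) + 1) * μ.real {x | ¬ ∃ i, Ψ i x < 1 / ((k : ℝ) + 1)} ≤ ∫ x, Ψ i x ∂μ := by
        intro i
        refine le_trans (mul_le_mul_of_nonneg_left ?_ hk.le) (hmk i)
        refine measureReal_mono ?_ (measure_ne_top _ _)
        intro x hx
        simp only [Set.mem_ofPred_eq, not_exists, not_lt] at hx ⊢
        exact hx i
      have e4 := ge_of_tendsto' hΨlim e3
      nlinarith
    have : μ {x | ¬ ∃ i, Ψ i x < 1 / ((k : ℝ) + 1)} = 0 := by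
      have e5 := le_antisymm hbad measureReal_nonneg
      rwa [measureReal_eq_zero_iff] at e5
    exact this
  -- discrete errors
  have her : ∀ᵐ x ∂μ, ∀ (i : ℕ) (j : Fin m), ∀ᵐ a : ℝ ∂(volume.restrict (Set.Ioi (0 : ℝ))), ∀ ε : ℝ, 0 < ε →
      ∀ᶠ N : ℕ in atTop, (1 / (N : ℝ)) * ∑ n ∈ Icc 1 N, e i j (τ j (a * n) x) ≤
        ε + K ε * (μ[e i j | flowInv (τ j)]) x := by
    rw [ae_all_iff]
    intro i
    rw [ae_all_iff]
    intro j
    exact hE X μ (τ j) (e i j) (hτ j) (hem i j) (heb i j)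
  -- continuous errors
  have hec : ∀ᵐ x ∂μ, ∀ (i : ℕ) (j : Fin m), Tendsto (fun V : ℝ => smo (τ j) (e i j) V x) atTop
      (nhds ((μ[e i j | flowInv (τ j)]) x)) := by
    rw [ae_all_iff]
    intro i
    rw [ae_all_iff]
    intro j
    exact h4 X μ (τ j) (e i j) (hτ j) (hem i j) ⟨1, heb' i j⟩
  filter_upwards [hinf, her, hec] with x hx1 hx2 hx3
  -- the main terms
  have hmain : ∀ i : ℕ, ∀ᵐ a : ℝ ∂(volume.restrict (Set.Ioi (0 : ℝ))),
      Tendsto (fun N : ℕ => (1 / (N : ℂ)) * ∑ n ∈ Icc 1 N, B n * ((∏ j, g i j (τ j (a * n) x) : ℝ) : ℂ) -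
        b * (((1 / (a * N)) * ∫ v in (0 : ℝ)..(a * N), ∏ j, g i j (τ j v x) : ℝ) : ℂ)) atTop (nhds 0) := by
    intro i
    refine one_lip h1 h2 hB ⟨CB, hCB⟩ (G := fun v => ∏ j, g i j (τ j v x))
      (L := ∑ j : Fin m, 2 * 1 / (1 / ((i : ℝ) + 1))) (Finset.sum_nonneg fun j _ => by positivity) ?_ ?_
    · intro v
      exact abs_prod_le_one _ _ fun j _ => hg1 i j _
    · intro v w
      refine (prod_diff _ _ _ (fun j _ => hg1 i j _) (fun j _ => hg1 i j _)).trans ?_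
      rw [Finset.sum_mul]
      exact Finset.sum_le_sum fun j _ => smo_lip (hτ j) (hf j) (hf1 j) (hpos i) x v w
  have hx2' : ∀ᵐ a : ℝ ∂(volume.restrict (Set.Ioi (0 : ℝ))), ∀ (i : ℕ) (j : Fin m), ∀ ε : ℝ, 0 < ε →
      ∀ᶠ N : ℕ in atTop, (1 / (N : ℝ)) * ∑ n ∈ Icc 1 N, e i j (τ j (a * n) x) ≤
        ε + K ε * (μ[e i j | flowInv (τ j)]) x := by
    rw [ae_all_iff]
    intro i
    rw [ae_all_iff]
    intro j
    exact hx2 i j
  filter_upwards [ae_all_iff.2 hmain, hx2', ae_restrict_mem measurableSet_Ioi] with a ha1 ha2 ha0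
  have ha0' : 0 < a := ha0
  rw [Metric.tendsto_nhds]
  intro ε' hε'
  -- choice of the parameters
  set R : ℝ := 2 * (CB + ‖b‖) * (m + 1) with hR
  have hR0 : 0 < R := by positivity
  set ε : ℝ := ε' / (4 * R) with hε
  have hε0 : 0 < ε := by positivity
  set Q : ℝ := 2 * (CB * K ε + ‖b‖) + 1 with hQ
  have hKε := hK ε
  have hQ0 : 0 < Q := by positivity
  obtain ⟨k, hk⟩ := exists_nat_one_div_lt (show 0 < ε' / (4 * Q) by positivity)
  obtain ⟨i, hi⟩ := hx1 k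
  have hi' : Q * Ψ i x ≤ ε' / 4 := by
    have : Ψ i x < ε' / (4 * Q) := hi.trans hk
    rw [lt_div_iff₀ (by positivity)] at this
    linarith
  have hΨx : 0 ≤ Ψ i x := by
    refine Finset.sum_nonneg fun j _ => ?_
    refine ge_of_tendsto (hx3 i j) ?_
    filter_upwards [eventually_gt_atTop (0 : ℝ)] with V hV
    unfold smo
    refine mul_nonneg (by positivity) (intervalIntegral.integral_nonneg hV.le fun r _ => (heb i j _).1)
  have hev1 := (Metric.tendsto_nhds.1 (ha1 i)) (ε' / 4) (by positivity)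
  have hev2 : ∀ᶠ N : ℕ in atTop, ∀ j : Fin m, (1 / (N : ℝ)) * ∑ n ∈ Icc 1 N, e i j (τ j (a * n) x) ≤
        ε + K ε * (μ[e i j | flowInv (τ j)]) x := by
    rw [Filter.eventually_all]
    intro j
    exact ha2 i j ε hε0
  have hlimN : Tendsto (fun N : ℕ => a * (N : ℝ)) atTop atTop :=
    tendsto_natCast_atTop_atTop.const_mul_atTop ha0'
  have hev3 : ∀ᶠ N : ℕ in atTop, ∀ j : Fin m, smo (τ j) (e i j) (a * N) x ≤
        ε + (μ[e i j | flowInv (τ j)]) x := by
    rw [Filter.eventually_all]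
    intro j
    have h5 := ((hx3 i j).comp hlimN).eventually (gt_mem_nhds (show (μ[e i j | flowInv (τ j)]) x <
      ε + (μ[e i j | flowInv (τ j)]) x by linarith))
    filter_upwards [h5] with N hN
    exact hN.le
  filter_upwards [hev1, hev2, hev3, eventually_gt_atTop 0] with N hN1 hN2 hN3 hN0
  rw [dist_zero_right] at hN1 ⊢
  have hNr : (0 : ℝ) < N := Nat.cast_pos.2 hN0
  have haN : 0 < a * N := by positivity
  -- notation for the two functions
  set P : ℝ → ℝ := fun v => ∏ j, f j (τ j v x) with hP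
  set G : ℝ → ℝ := fun v => ∏ j, g i j (τ j v x) with hG
  set D : ℝ → ℝ := fun v => ∑ j, 2 * e i j (τ j v x) with hD
  have hPG : ∀ v, |P v - G v| ≤ D v := by
    intro v
    refine (prod_diff _ _ _ (fun j _ => hf1 j _) (fun j _ => hg1 i j _)).trans (le_of_eq ?_)
    refine Finset.sum_congr rfl fun j _ => ?_
    simp only [hedef]
    ring
  have hPm : Measurable P := Finset.measurable_prod _ fun j _ => meas_orb (hτ j) (hf j) x
  have hGm : Measurable G := Finset.measurable_prod _ fun j _ => meas_orb (hτ j) (hgm i j) x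
  have hPi : ∀ s t : ℝ, IntervalIntegrable P volume s t := by
    intro s t
    rw [intervalIntegrable_iff]
    exact Measure.integrableOn_of_bounded (M := 1) (by simp) hPm.aestronglyMeasurable
      (ae_of_all _ fun r => abs_prod_le_one _ _ fun j _ => hf1 j _)
  have hGi : ∀ s t : ℝ, IntervalIntegrable G volume s t := by
    intro s t
    rw [intervalIntegrable_iff]
    exact Measure.integrableOn_of_bounded (M := 1) (by simp) hGm.aestronglyMeasurable
      (ae_of_all _ fun r => abs_prod_le_one _ _ fun j _ => hg1 i j _)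
  have hDi : ∀ s t : ℝ, IntervalIntegrable D volume s t := by
    intro s t
    have h5 := IntervalIntegrable.sum (Finset.univ : Finset (Fin m)) (f := fun j v => 2 * e i j (τ j v x))
      (μ := volume) (a := s) (b := t) (fun j _ => (ii_orb (hτ j) (hem i j) (heb' i j) x s t).const_mul 2)
    have h6 : D = ∑ j : Fin m, fun v => 2 * e i j (τ j v x) := by
      ext v
      simp only [hD, Finset.sum_apply]
    rw [h6]
    exact h5
  have hsplit : (1 / (N : ℂ)) * ∑ n ∈ Icc 1 N, B n * ((P (a * n) : ℝ) : ℂ) -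
        b * (((1 / (a * N)) * ∫ v in (0 : ℝ)..(a * N), P v : ℝ) : ℂ) =
      ((1 / (N : ℂ)) * ∑ n ∈ Icc 1 N, B n * ((G (a * n) : ℝ) : ℂ) -
        b * (((1 / (a * N)) * ∫ v in (0 : ℝ)..(a * N), G v : ℝ) : ℂ)) +
      ((1 / (N : ℂ)) * ∑ n ∈ Icc 1 N, B n * ((P (a * n) - G (a * n) : ℝ) : ℂ)) -
      b * (((1 / (a * N)) * ∫ v in (0 : ℝ)..(a * N), (P v - G v) : ℝ) : ℂ) := by
    rw [intervalIntegral.integral_sub (hPi _ _) (hGi _ _)]
    have e1 : ∑ n ∈ Icc 1 N, B n * ((P (a * n) - G (a * n) : ℝ) : ℂ) =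
        ∑ n ∈ Icc 1 N, B n * ((P (a * n) : ℝ) : ℂ) - ∑ n ∈ Icc 1 N, B n * ((G (a * n) : ℝ) : ℂ) := by
      rw [← Finset.sum_sub_distrib]
      exact Finset.sum_congr rfl fun n _ => by push_cast; ring
    rw [e1]
    push_cast
    ring
  rw [hsplit]
  have hb1 : ‖(1 / (N : ℂ)) * ∑ n ∈ Icc 1 N, B n * ((P (a * n) - G (a * n) : ℝ) : ℂ)‖ ≤
      CB * ((1 / (N : ℝ)) * ∑ n ∈ Icc 1 N, D (a * n)) := by
    rw [norm_mul, norm_div, norm_one, Complex.norm_natCast]
    have e1 : ‖∑ n ∈ Icc 1 N, B n * ((P (a * n) - G (a * n) : ℝ) : ℂ)‖ ≤ ∑ n ∈ Icc 1 N, CB * D (a * n) := by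
      refine (norm_sum_le _ _).trans (Finset.sum_le_sum fun n _ => ?_)
      rw [norm_mul, Complex.norm_real, Real.norm_eq_abs]
      exact mul_le_mul (hCB n) (hPG _) (abs_nonneg _) hCB0.le
    rw [← Finset.mul_sum] at e1
    calc _ ≤ 1 / (N : ℝ) * (CB * ∑ n ∈ Icc 1 N, D (a * n)) := by gcongr
      _ = _ := by ring
  have hb1' : (1 / (N : ℝ)) * ∑ n ∈ Icc 1 N, D (a * n) ≤ 2 * (m * ε + K ε * Ψ i x) := by
    simp only [hD]
    rw [Finset.sum_comm, Finset.mul_sum]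
    calc ∑ j : Fin m, (1 / (N : ℝ)) * ∑ n ∈ Icc 1 N, 2 * e i j (τ j (a * n) x)
        = ∑ j : Fin m, 2 * ((1 / (N : ℝ)) * ∑ n ∈ Icc 1 N, e i j (τ j (a * n) x)) := by
          refine Finset.sum_congr rfl fun j _ => ?_
          rw [← Finset.mul_sum]; ring
      _ ≤ ∑ j : Fin m, 2 * (ε + K ε * (μ[e i j | flowInv (τ j)]) x) :=
          Finset.sum_le_sum fun j _ => mul_le_mul_of_nonneg_left (hN2 j) (by norm_num)
      _ = _ := by
          simp only [hΨ]
          rw [← Finset.mul_sum, Finset.sum_add_distrib, ← Finset.mul_sum]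
          simp
  have hb2 : ‖b * (((1 / (a * N)) * ∫ v in (0 : ℝ)..(a * N), (P v - G v) : ℝ) : ℂ)‖ ≤
      ‖b‖ * ((1 / (a * N)) * ∫ v in (0 : ℝ)..(a * N), D v) := by
    rw [norm_mul, Complex.norm_real, Real.norm_eq_abs, abs_mul, abs_of_pos (by positivity : 0 < 1 / (a * (N : ℝ)))]
    have e1 : |∫ v in (0 : ℝ)..(a * N), (P v - G v)| ≤ ∫ v in (0 : ℝ)..(a * N), D v := by
      rw [← Real.norm_eq_abs]
      refine intervalIntegral.norm_integral_le_of_norm_le haN.le ?_ (hDi _ _)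
      exact ae_of_all _ fun v _ => hPG v
    gcongr
  have hb2' : (1 / (a * N)) * ∫ v in (0 : ℝ)..(a * N), D v ≤ 2 * (m * ε + Ψ i x) := by
    simp only [hD]
    rw [intervalIntegral.integral_finset_sum fun j _ =>
      (ii_orb (hτ j) (hem i j) (heb' i j) x 0 (a * N)).const_mul 2, Finset.mul_sum]
    calc ∑ j : Fin m, (1 / (a * N)) * ∫ v in (0 : ℝ)..(a * N), 2 * e i j (τ j v x)
        = ∑ j : Fin m, 2 * smo (τ j) (e i j) (a * N) x := by
          refine Finset.sum_congr rfl fun j _ => ?_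
          unfold smo
          rw [intervalIntegral.integral_const_mul]; ring
      _ ≤ ∑ j : Fin m, 2 * (ε + (μ[e i j | flowInv (τ j)]) x) :=
          Finset.sum_le_sum fun j _ => mul_le_mul_of_nonneg_left (hN3 j) (by norm_num)
      _ = _ := by
          simp only [hΨ]
          rw [← Finset.mul_sum, Finset.sum_add_distrib]
          simp
  have hfin : CB * (2 * (m * ε + K ε * Ψ i x)) + ‖b‖ * (2 * (m * ε + Ψ i x)) ≤ ε' / 4 + ε' / 4 := by
    have e1 : CB * (2 * (m * ε + K ε * Ψ i x)) + ‖b‖ * (2 * (m * ε + Ψ i x)) =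
        2 * (CB + ‖b‖) * m * ε + 2 * (CB * K ε + ‖b‖) * Ψ i x := by ring
    have e2 : 2 * (CB + ‖b‖) * m * ε ≤ R * ε := by
      apply mul_le_mul_of_nonneg_right _ hε0.le
      rw [hR]
      have : 0 ≤ ‖b‖ := norm_nonneg _
      nlinarith
    have e3 : R * ε = ε' / 4 := by
      rw [hε]; field_simp
    have e4 : 2 * (CB * K ε + ‖b‖) * Ψ i x ≤ Q * Ψ i x := by
      apply mul_le_mul_of_nonneg_right _ hΨx
      rw [hQ]; linarith
    rw [e1]; linarith
  calc _ ≤ ‖(1 / (N : ℂ)) * ∑ n ∈ Icc 1 N, B n * ((G (a * n) : ℝ) : ℂ) -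
        b * (((1 / (a * N)) * ∫ v in (0 : ℝ)..(a * N), G v : ℝ) : ℂ)‖ +
      ‖(1 / (N : ℂ)) * ∑ n ∈ Icc 1 N, B n * ((P (a * n) - G (a * n) : ℝ) : ℂ)‖ +
      ‖b * (((1 / (a * N)) * ∫ v in (0 : ℝ)..(a * N), (P v - G v) : ℝ) : ℂ)‖ :=
        (norm_sub_le _ _).trans (add_le_add (norm_add_le _ _) le_rfl)
    _ ≤ ε' / 4 + CB * (2 * (m * ε + K ε * Ψ i x)) + ‖b‖ * (2 * (m * ε + Ψ i x)) :=
        add_le_add (add_le_add hN1.le (hb1.trans (mul_le_mul_of_nonneg_left hb1' hCB0.le)))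
          (hb2.trans (mul_le_mul_of_nonneg_left hb2' (norm_nonneg _)))
    _ < ε' := by linarith

theorem mul (h1 : S_DET) (h2 : S_RIE) (h3 : S_FLW2.{u}) (h4 : S_FLWB.{u}) : S_MUL.{u} := by
  intro B b hB hBb X _ μ _ m τ c f hτ hc hf hfb
  obtain ⟨C', hC'⟩ := hfb
  set C : ℝ := |C'| + 1 with hCdef
  have hC0 : 0 < C := by positivity
  have hC : ∀ j x, |f j x| ≤ C := fun j x => (hC' j x).trans ((le_abs_self _).trans (by linarith))
  have hmain := core h1 h2 h3 h4 B b hB hBb X μ m (fun j t => τ j (c j * t)) (fun j x => f j x / C)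
    (fun j => isFlow_mul (hτ j) (c j)) (fun j => (hf j).div_const C)
    (fun j x => by
      rw [abs_div, abs_of_pos hC0, div_le_one hC0]
      exact hC j x)
  filter_upwards [hmain] with x hx
  filter_upwards [hx] with a ha
  have h5 := ha.const_mul ((C : ℂ) ^ m)
  rw [mul_zero] at h5
  refine h5.congr fun N => ?_
  have hprod : ∀ v : ℝ, ∏ j, (f j (τ j (c j * v) x) / C) = (∏ j, f j (τ j (c j * v) x)) / C ^ m := by
    intro v
    rw [Finset.prod_div_distrib]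
    simp
  have hCc : (C : ℂ) ≠ 0 := by exact_mod_cast hC0.ne'
  have hCm : (C : ℂ) ^ m ≠ 0 := pow_ne_zero _ hCc
  simp only [hprod]
  rw [intervalIntegral.integral_div, mul_sub]
  congr 1
  · rw [← mul_assoc, mul_comm ((C : ℂ) ^ m), mul_assoc, Finset.mul_sum]
    congr 1
    refine Finset.sum_congr rfl fun n _ => ?_
    set P : ℝ := ∏ j, f j (τ j (c j * (a * n)) x) with hP
    have e1 : ((P / C ^ m : ℝ) : ℂ) = (P : ℂ) * ((C : ℂ) ^ m)⁻¹ := by
      push_cast
      ring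
    rw [e1]
    calc (C : ℂ) ^ m * (B n * ((P : ℂ) * ((C : ℂ) ^ m)⁻¹)) = B n * (P : ℂ) * ((C : ℂ) ^ m * ((C : ℂ) ^ m)⁻¹) := by
          ring
      _ = _ := by rw [mul_inv_cancel₀ hCm, mul_one]
  · set I : ℝ := ∫ v in (0 : ℝ)..(a * N), ∏ j, f j (τ j (c j * v) x) with hI
    have e1 : ((1 / (a * N) * (I / C ^ m) : ℝ) : ℂ) = ((1 / (a * N) * I : ℝ) : ℂ) * ((C : ℂ) ^ m)⁻¹ := by
      push_cast
      ring
    rw [e1, ← mul_assoc, mul_comm ((C : ℂ) ^ m) b, mul_assoc, mul_comm ((C : ℂ) ^ m), mul_assoc,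
      inv_mul_cancel₀ hCm, mul_one]

end Pool.Agent.Y256.MC
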