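import Pool.Agent.Y957.MC.Spec4
import Pool.Agent.Y957.MC.Flw1
import Pool.Agent.Y312.MC.Flw3
import Pool.Agent.Y256.MC.Mul

/-!
MC4-PTI (helper256 for helper957, MP_4d8f14_an): several flows at the same polynomial times; convergence of the
continuous averages implies convergence along `a p(n)`.
-/

set_option autoImplicit false

namespace Pool.Agent.Y256.MC

open MeasureTheory Filter Finset Pool.Agent.Y957.MC
open Pool.Agent.Y312.MC (smo_meas smo_bdd smo_L1 meas_orb int_bdd flowInv_le ii_orb)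

universe u

/-- products of complex numbers of absolute value at most one -/
theorem prod_diffC {ι : Type*} (s : Finset ι) (a b : ι → ℂ) (ha : ∀ i ∈ s, ‖a i‖ ≤ 1) (hb : ∀ i ∈ s, ‖b i‖ ≤ 1) :
    ‖∏ i ∈ s, a i - ∏ i ∈ s, b i‖ ≤ ∑ i ∈ s, ‖a i - b i‖ := by
  classical
  induction s using Finset.induction_on with
  | empty => simp
  | insert k s hk ih =>
    rw [Finset.prod_insert hk, Finset.prod_insert hk, Finset.sum_insert hk]
    have h1 := ih (fun i hi => ha i (Finset.mem_insert_of_mem hi)) (fun i hi => hb i (Finset.mem_insert_of_mem hi))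
    have h2 := ha k (Finset.mem_insert_self _ _)
    have h3 : ‖∏ i ∈ s, b i‖ ≤ 1 := by
      rw [norm_prod]
      exact Finset.prod_le_one (fun i _ => norm_nonneg _) (fun i hi => hb i (Finset.mem_insert_of_mem hi))
    have e : a k * ∏ i ∈ s, a i - b k * ∏ i ∈ s, b i =
        a k * (∏ i ∈ s, a i - ∏ i ∈ s, b i) + (a k - b k) * ∏ i ∈ s, b i := by ring
    rw [e]
    calc ‖a k * (∏ i ∈ s, a i - ∏ i ∈ s, b i) + (a k - b k) * ∏ i ∈ s, b i‖
        ≤ ‖a k * (∏ i ∈ s, a i - ∏ i ∈ s, b i)‖ + ‖(a k - b k) * ∏ i ∈ s, b i‖ := norm_add_le _ _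
      _ = ‖a k‖ * ‖∏ i ∈ s, a i - ∏ i ∈ s, b i‖ + ‖a k - b k‖ * ‖∏ i ∈ s, b i‖ := by rw [norm_mul, norm_mul]
      _ ≤ 1 * (∑ i ∈ s, ‖a i - b i‖) + ‖a k - b k‖ * 1 := by gcongr
      _ = _ := by ring

theorem norm_prod_le_one' {ι : Type*} (s : Finset ι) (a : ι → ℂ) (ha : ∀ i ∈ s, ‖a i‖ ≤ 1) : ‖∏ i ∈ s, a i‖ ≤ 1 := by
  rw [norm_prod]
  exact Finset.prod_le_one (fun i _ => norm_nonneg _) ha

section flows

variable {X : Type u} [mX : MeasurableSpace X] {μ : Measure X} [IsProbabilityMeasure μ] {τ : ℝ → X → X}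

/-- the average of a complex function over `[0, δ]` along the flow -/
noncomputable def smoC (τ : ℝ → X → X) (f : X → ℂ) (δ : ℝ) (x : X) : ℂ :=
  (smo τ (fun y => (f y).re) δ x : ℂ) + (smo τ (fun y => (f y).im) δ x : ℂ) * Complex.I

omit mX in
theorem re_le {f : X → ℂ} (hf1 : ∀ x, ‖f x‖ ≤ 1) (x : X) : |(f x).re| ≤ 1 :=
  (Complex.abs_re_le_norm _).trans (hf1 x)

omit mX in
theorem im_le {f : X → ℂ} (hf1 : ∀ x, ‖f x‖ ≤ 1) (x : X) : |(f x).im| ≤ 1 :=
  (Complex.abs_im_le_norm _).trans (hf1 x)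

theorem re_meas {f : X → ℂ} (hf : Measurable f) : Measurable fun y => (f y).re := Complex.measurable_re.comp hf

theorem im_meas {f : X → ℂ} (hf : Measurable f) : Measurable fun y => (f y).im := Complex.measurable_im.comp hf

theorem smoC_meas (hF : IsFlow μ τ) {f : X → ℂ} (hf : Measurable f) {δ : ℝ} (hδ : 0 < δ) :
    Measurable (smoC τ f δ) := by
  unfold smoC
  exact (Complex.measurable_ofReal.comp (smo_meas hF (re_meas hf) hδ)).add
    ((Complex.measurable_ofReal.comp (smo_meas hF (im_meas hf) hδ)).mul_const _)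

theorem smoC_eq (hF : IsFlow μ τ) {f : X → ℂ} (hf : Measurable f) (hf1 : ∀ x, ‖f x‖ ≤ 1) {δ : ℝ} (x : X) :
    smoC τ f δ x = (1 / (δ : ℂ)) * ∫ r in (0 : ℝ)..δ, f (τ r x) := by
  have h1 : IntervalIntegrable (fun r => (((f (τ r x)).re : ℝ) : ℂ)) volume 0 δ := by
    rw [intervalIntegrable_iff]
    exact Measure.integrableOn_of_bounded (M := 1) (by simp)
      (Complex.measurable_ofReal.comp (meas_orb hF (re_meas hf) x)).aestronglyMeasurable
      (ae_of_all _ fun r => by rw [Complex.norm_real]; exact re_le hf1 _)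
  have h2 : IntervalIntegrable (fun r => (((f (τ r x)).im : ℝ) : ℂ)) volume 0 δ := by
    rw [intervalIntegrable_iff]
    exact Measure.integrableOn_of_bounded (M := 1) (by simp)
      (Complex.measurable_ofReal.comp (meas_orb hF (im_meas hf) x)).aestronglyMeasurable
      (ae_of_all _ fun r => by rw [Complex.norm_real]; exact im_le hf1 _)
  have h3 : ∫ r in (0 : ℝ)..δ, f (τ r x) =
      ((∫ r in (0 : ℝ)..δ, (f (τ r x)).re : ℝ) : ℂ) + ((∫ r in (0 : ℝ)..δ, (f (τ r x)).im : ℝ) : ℂ) * Complex.I := by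
    rw [← intervalIntegral.integral_ofReal, ← intervalIntegral.integral_ofReal,
      ← intervalIntegral.integral_mul_const, ← intervalIntegral.integral_add h1 (h2.mul_const _)]
    refine intervalIntegral.integral_congr fun r _ => ?_
    simp only [Complex.re_add_im]
  rw [h3]
  unfold smoC smo
  push_cast
  ring

theorem smoC_bdd (hF : IsFlow μ τ) {f : X → ℂ} (hf : Measurable f) (hf1 : ∀ x, ‖f x‖ ≤ 1) {δ : ℝ} (hδ : 0 < δ)
    (x : X) : ‖smoC τ f δ x‖ ≤ 1 := by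
  rw [smoC_eq hF hf hf1]
  have h1 : ‖∫ r in (0 : ℝ)..δ, f (τ r x)‖ ≤ 1 * |δ - 0| :=
    intervalIntegral.norm_integral_le_of_norm_le_const fun r _ => hf1 _
  rw [sub_zero, abs_of_pos hδ, one_mul] at h1
  rw [norm_mul, norm_div, norm_one, Complex.norm_real, Real.norm_eq_abs, abs_of_pos hδ]
  calc 1 / δ * ‖∫ r in (0 : ℝ)..δ, f (τ r x)‖ ≤ 1 / δ * δ := by gcongr
    _ = 1 := by field_simp

theorem norm_split (a b : ℝ) : ‖(a : ℂ) + (b : ℂ) * Complex.I‖ ≤ |a| + |b| := by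
  refine (norm_add_le _ _).trans ?_
  rw [norm_mul, Complex.norm_I, mul_one, Complex.norm_real, Complex.norm_real, Real.norm_eq_abs, Real.norm_eq_abs]

theorem smoC_lip (hF : IsFlow μ τ) {f : X → ℂ} (hf : Measurable f) (hf1 : ∀ x, ‖f x‖ ≤ 1) {δ : ℝ} (hδ : 0 < δ)
    (x : X) (v w : ℝ) :
    ‖smoC τ f δ (τ v x) - smoC τ f δ (τ w x)‖ ≤ 2 * (2 * 1 / δ) * |v - w| := by
  have h1 := smo_lip hF (re_meas hf) (re_le hf1) hδ x v w
  have h2 := smo_lip hF (im_meas hf) (im_le hf1) hδ x v w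
  have e : smoC τ f δ (τ v x) - smoC τ f δ (τ w x) =
      ((smo τ (fun y => (f y).re) δ (τ v x) - smo τ (fun y => (f y).re) δ (τ w x) : ℝ) : ℂ) +
      ((smo τ (fun y => (f y).im) δ (τ v x) - smo τ (fun y => (f y).im) δ (τ w x) : ℝ) : ℂ) * Complex.I := by
    unfold smoC
    push_cast
    ring
  rw [e]
  refine (norm_split _ _).trans ?_
  linarith

theorem smoC_L1 (hF : IsFlow μ τ) {f : X → ℂ} (hf : Measurable f) (hf1 : ∀ x, ‖f x‖ ≤ 1) :
    Tendsto (fun j : ℕ => ∫ x, ‖f x - smoC τ f (1 / ((j : ℝ) + 1)) x‖ ∂μ) atTop (nhds 0) := by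
  have hpos : ∀ i : ℕ, 0 < 1 / ((i : ℝ) + 1) := fun i => by positivity
  have h1 := smo_L1 hF (re_meas hf) (re_le hf1)
  have h2 := smo_L1 hF (im_meas hf) (im_le hf1)
  have h3 := h1.add h2
  rw [add_zero] at h3
  refine tendsto_of_tendsto_of_tendsto_of_le_of_le tendsto_const_nhds h3
    (fun j => integral_nonneg fun x => norm_nonneg _) (fun j => ?_)
  have hr : Integrable (fun x => |(f x).re - smo τ (fun y => (f y).re) (1 / ((j : ℝ) + 1)) x|) μ :=
    ((int_bdd (re_meas hf) (re_le hf1)).sub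
      (int_bdd (smo_meas hF (re_meas hf) (hpos j)) (smo_bdd (re_le hf1) (hpos j)))).abs
  have hi : Integrable (fun x => |(f x).im - smo τ (fun y => (f y).im) (1 / ((j : ℝ) + 1)) x|) μ :=
    ((int_bdd (im_meas hf) (im_le hf1)).sub
      (int_bdd (smo_meas hF (im_meas hf) (hpos j)) (smo_bdd (im_le hf1) (hpos j)))).abs
  show ∫ x, ‖f x - smoC τ f (1 / ((j : ℝ) + 1)) x‖ ∂μ ≤ _
  rw [← integral_add hr hi]
  refine integral_mono_of_nonneg (ae_of_all _ fun x => norm_nonneg _) (hr.add hi) (ae_of_all _ fun x => ?_)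
  have e : f x - smoC τ f (1 / ((j : ℝ) + 1)) x =
      (((f x).re - smo τ (fun y => (f y).re) (1 / ((j : ℝ) + 1)) x : ℝ) : ℂ) +
      (((f x).im - smo τ (fun y => (f y).im) (1 / ((j : ℝ) + 1)) x : ℝ) : ℂ) * Complex.I := by
    unfold smoC
    conv_lhs => rw [← Complex.re_add_im (f x)]
    push_cast
    ring
  simp only [e]
  exact norm_split _ _

end flows

/-- the case of functions bounded by one -/
theorem coreP (h1 : S_DETG) (h2 : S_REGC) (h3 : S_FLW2.{u}) (h4 : S_FLWB.{u})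
    (h5 : ∀ p : ℝ → ℝ, Adm p → Good (fun n : ℕ => p n)) (p : ℝ → ℝ) (hp : Adm p) (hpm : Measurable p)
    (X : Type u) [MeasurableSpace X] (μ : Measure X) [IsProbabilityMeasure μ] (m : ℕ) (τ : Fin m → ℝ → X → X)
    (f : Fin m → X → ℂ) (hτ : ∀ j, IsFlow μ (τ j)) (hf : ∀ j, Measurable (f j))
    (hf1 : ∀ j x, ‖f j x‖ ≤ 1) :
    ∀ᵐ x ∂μ, ∀ᵐ a : ℝ ∂(volume.restrict (Set.Ioi (0 : ℝ))), ∀ L : ℂ,
      Tendsto (fun V : ℝ => (1 / (V : ℂ)) * ∫ v in (0 : ℝ)..V, ∏ j, f j (τ j v x)) atTop (nhds L) →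
      Tendsto (fun N : ℕ => (1 / (N : ℂ)) * ∑ n ∈ Icc 1 N, ∏ j, f j (τ j (a * p n) x)) atTop (nhds L) := by
  obtain ⟨K, hK, hE⟩ := h3 _ (h5 p hp)
  obtain ⟨K₀, hK₀, hR⟩ := h2 p hp hpm
  have hpos : ∀ i : ℕ, 0 < 1 / ((i : ℝ) + 1) := fun i => by positivity
  set g : ℕ → Fin m → X → ℂ := fun i j => smoC (τ j) (f j) (1 / ((i : ℝ) + 1)) with hgdef
  have hgm : ∀ i j, Measurable (g i j) := fun i j => smoC_meas (hτ j) (hf j) (hpos i)
  have hg1 : ∀ i j x, ‖g i j x‖ ≤ 1 := fun i j x => smoC_bdd (hτ j) (hf j) (hf1 j) (hpos i) x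
  -- errors
  set e : ℕ → Fin m → X → ℝ := fun i j x => ‖f j x - g i j x‖ / 2 with hedef
  have hem : ∀ i j, Measurable (e i j) := fun i j => ((hf j).sub (hgm i j)).norm.div_const _
  have heb : ∀ i j x, 0 ≤ e i j x ∧ e i j x ≤ 1 := fun i j x => by
    have h5 := norm_sub_le (f j x) (g i j x)
    have h6 := hf1 j x
    have h7 := hg1 i j x
    refine ⟨by positivity, ?_⟩
    simp only [hedef]
    linarith
  have heb' : ∀ i j x, |e i j x| ≤ 1 := fun i j x => by
    rw [abs_of_nonneg (heb i j x).1]; exact (heb i j x).2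
  have heint : ∀ j, Tendsto (fun i => ∫ x, e i j x ∂μ) atTop (nhds 0) := by
    intro j
    have h5 := (smoC_L1 (hτ j) (hf j) (hf1 j)).div_const 2
    rw [zero_div] at h5
    refine h5.congr fun i => ?_
    simp only [hedef, hgdef, integral_div]
  -- the sum of the conditional expectations
  set Ψ : ℕ → X → ℝ := fun i x => ∑ j, (μ[e i j | flowInv (τ j)]) x with hΨ
  have hΨ0 : ∀ i, 0 ≤ᵐ[μ] Ψ i := by
    intro i
    have : ∀ᵐ x ∂μ, ∀ j, 0 ≤ (μ[e i j | flowInv (τ j)]) x := by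
      rw [ae_all_iff]
      intro j
      exact condExp_nonneg (ae_of_all _ fun x => (heb i j x).1)
    filter_upwards [this] with x hx
    exact Finset.sum_nonneg fun j _ => hx j
  have hΨi : ∀ i, Integrable (Ψ i) μ := fun i => integrable_finsetSum _ fun j _ => integrable_condExp
  have hΨint : ∀ i, ∫ x, Ψ i x ∂μ = ∑ j, ∫ x, e i j x ∂μ := by
    intro i
    simp only [hΨ]
    rw [integral_finsetSum _ fun j _ => integrable_condExp]
    exact Finset.sum_congr rfl fun j _ => integral_condExp (flowInv_le (τ j))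
  have hΨlim : Tendsto (fun i => ∫ x, Ψ i x ∂μ) atTop (nhds 0) := by
    simp only [hΨint]
    have := tendsto_finsetSum (Finset.univ : Finset (Fin m)) fun j _ => heint j
    simpa using this
  have hinf : ∀ᵐ x ∂μ, ∀ k : ℕ, ∃ i, Ψ i x < 1 / ((k : ℝ) + 1) := by
    rw [ae_all_iff]
    intro k
    have hk : 0 < 1 / ((k : ℝ) + 1) := hpos k
    have hmk : ∀ i, 1 / ((k : ℝ) + 1) * μ.real {x | 1 / ((k : ℝ) + 1) ≤ Ψ i x} ≤ ∫ x, Ψ i x ∂μ :=
      fun i => mul_meas_ge_le_integral_of_nonneg (hΨ0 i) (hΨi i) (1 / ((k : ℝ) + 1))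
    have hbad : μ.real {x | ¬ ∃ i, Ψ i x < 1 / ((k : ℝ) + 1)} ≤ 0 := by
      have e3 : ∀ i, 1 / ((k : ℝ) + 1) * μ.real {x | ¬ ∃ i, Ψ i x < 1 / ((k : ℝ) + 1)} ≤ ∫ x, Ψ i x ∂μ := by
        intro i
        refine le_trans (mul_le_mul_of_nonneg_left ?_ hk.le) (hmk i)
        refine measureReal_mono ?_ (measure_ne_top _ _)
        intro x hx
        simp only [Set.mem_ofPred_eq, not_exists, not_lt] at hx ⊢
        exact hx i
      have e4 := ge_of_tendsto' hΨlim e3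
      nlinarith
    have : μ {x | ¬ ∃ i, Ψ i x < 1 / ((k : ℝ) + 1)} = 0 := by
      have e5 := le_antisymm hbad measureReal_nonneg
      rwa [measureReal_eq_zero_iff] at e5
    exact this
  -- discrete errors
  have her : ∀ᵐ x ∂μ, ∀ (i : ℕ) (j : Fin m), ∀ᵐ a : ℝ ∂(volume.restrict (Set.Ioi (0 : ℝ))), ∀ ε : ℝ, 0 < ε →
      ∀ᶠ N : ℕ in atTop, (1 / (N : ℝ)) * ∑ n ∈ Icc 1 N, e i j (τ j (a * p n) x) ≤
        ε + K ε * (μ[e i j | flowInv (τ j)]) x := by
    rw [ae_all_iff]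
    intro i
    rw [ae_all_iff]
    intro j
    exact hE X μ (τ j) (e i j) (hτ j) (hem i j) (heb i j)
  -- continuous errors
  have hec : ∀ᵐ x ∂μ, ∀ (i : ℕ) (j : Fin m), Tendsto (fun V : ℝ => smo (τ j) (e i j) V x) atTop
      (nhds ((μ[e i j | flowInv (τ j)]) x)) := by
    rw [ae_all_iff]
    intro i
    rw [ae_all_iff]
    intro j
    exact h4 X μ (τ j) (e i j) (hτ j) (hem i j) ⟨1, heb' i j⟩
  filter_upwards [hinf, her, hec] with x hx1 hx2 hx3
  -- the main terms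
  have hGlip : ∀ (i : ℕ) (v w : ℝ), ‖∏ j, g i j (τ j v x) - ∏ j, g i j (τ j w x)‖ ≤
      (∑ j : Fin m, 2 * (2 * 1 / (1 / ((i : ℝ) + 1)))) * |v - w| := by
    intro i v w
    refine (prod_diffC _ _ _ (fun j _ => hg1 i j _) (fun j _ => hg1 i j _)).trans ?_
    rw [Finset.sum_mul]
    exact Finset.sum_le_sum fun j _ => smoC_lip (hτ j) (hf j) (hf1 j) (hpos i) x v w
  have hGL0 : ∀ i : ℕ, 0 ≤ ∑ j : Fin m, 2 * (2 * 1 / (1 / ((i : ℝ) + 1))) := fun i =>
    Finset.sum_nonneg fun j _ => by positivity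
  have hGcont : ∀ i : ℕ, Continuous (fun v : ℝ => ∏ j, g i j (τ j v x)) := by
    intro i
    have : LipschitzWith (Real.toNNReal (∑ j : Fin m, 2 * (2 * 1 / (1 / ((i : ℝ) + 1)))))
        (fun v : ℝ => ∏ j, g i j (τ j v x)) := by
      apply LipschitzWith.of_dist_le_mul
      intro v w
      rw [dist_eq_norm, Real.dist_eq, Real.coe_toNNReal _ (hGL0 i)]
      exact hGlip i v w
    exact this.continuous
  have hGone : ∀ (i : ℕ) (v : ℝ), ‖∏ j, g i j (τ j v x)‖ ≤ 1 := fun i v =>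
    norm_prod_le_one' _ _ fun j _ => hg1 i j _
  have hmain : ∀ i : ℕ, ∀ᵐ a : ℝ ∂(volume.restrict (Set.Ioi (0 : ℝ))),
      Tendsto (fun N : ℕ => (1 / (N : ℂ)) * (∑ n ∈ Icc 1 N, ∏ j, g i j (τ j (a * p n) x) -
        ∫ v in (0 : ℝ)..N, ∏ j, g i j (τ j (a * p v) x))) atTop (nhds 0) := by
    intro i
    exact h1 p hp hpm (fun v => ∏ j, g i j (τ j v x)) (hGcont i).measurable (hGone i)
      (mod_of_lip (hGL0 i) (hGlip i))
  have hx2' : ∀ᵐ a : ℝ ∂(volume.restrict (Set.Ioi (0 : ℝ))), ∀ (i : ℕ) (j : Fin m), ∀ ε : ℝ, 0 < ε →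
      ∀ᶠ N : ℕ in atTop, (1 / (N : ℝ)) * ∑ n ∈ Icc 1 N, e i j (τ j (a * p n) x) ≤
        ε + K ε * (μ[e i j | flowInv (τ j)]) x := by
    rw [ae_all_iff]
    intro i
    rw [ae_all_iff]
    intro j
    exact hx2 i j
  filter_upwards [ae_all_iff.2 hmain, hx2', ae_restrict_mem measurableSet_Ioi] with a ha1 ha2 ha0
  have ha0' : 0 < a := ha0
  intro L hL
  rw [Metric.tendsto_nhds]
  intro ε' hε'
  -- choice of the parameters
  set R : ℝ := 2 * m + 3 + K₀ + 2 * K₀ * m with hRdef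
  have hR0 : 0 < R := by positivity
  set ε : ℝ := ε' / (4 * R) with hε
  have hε0 : 0 < ε := by positivity
  set Q : ℝ := 2 * (K ε + K₀) + 1 with hQ
  have hKε := hK ε
  have hQ0 : 0 < Q := by positivity
  obtain ⟨k, hk⟩ := exists_nat_one_div_lt (show 0 < ε' / (4 * Q) by positivity)
  obtain ⟨i, hi⟩ := hx1 k
  have hi' : Q * Ψ i x ≤ ε' / 4 := by
    have : Ψ i x < ε' / (4 * Q) := hi.trans hk
    rw [lt_div_iff₀ (by positivity)] at this
    linarith
  have hΨx : 0 ≤ Ψ i x := by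
    refine Finset.sum_nonneg fun j _ => ?_
    refine ge_of_tendsto (hx3 i j) ?_
    filter_upwards [eventually_gt_atTop (0 : ℝ)] with V hV
    unfold smo
    refine mul_nonneg (by positivity) (intervalIntegral.integral_nonneg hV.le fun r _ => (heb i j _).1)
  -- notation for the two functions
  set P : ℝ → ℂ := fun v => ∏ j, f j (τ j v x) with hP
  set G : ℝ → ℂ := fun v => ∏ j, g i j (τ j v x) with hG
  set D : ℝ → ℝ := fun v => ∑ j, 2 * e i j (τ j v x) with hD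
  have hPG : ∀ v, ‖P v - G v‖ ≤ D v := by
    intro v
    refine (prod_diffC _ _ _ (fun j _ => hf1 j _) (fun j _ => hg1 i j _)).trans (le_of_eq ?_)
    refine Finset.sum_congr rfl fun j _ => ?_
    simp only [hedef]
    ring
  have horb : ∀ j : Fin m, Measurable (fun v : ℝ => f j (τ j v x)) := fun j =>
    (hf j).comp ((hτ j).meas.comp (measurable_id.prodMk measurable_const))
  have hPm : Measurable P := Finset.measurable_prod _ fun j _ => horb j
  have hPi : ∀ s t : ℝ, IntervalIntegrable P volume s t := by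
    intro s t
    rw [intervalIntegrable_iff]
    exact Measure.integrableOn_of_bounded (M := 1) (by simp) hPm.aestronglyMeasurable
      (ae_of_all _ fun r => norm_prod_le_one' _ _ fun j _ => hf1 j _)
  have hGi : ∀ s t : ℝ, IntervalIntegrable G volume s t := fun s t => (hGcont i).intervalIntegrable s t
  have hDi : ∀ s t : ℝ, IntervalIntegrable D volume s t := by
    intro s t
    have h5 := IntervalIntegrable.sum (Finset.univ : Finset (Fin m)) (f := fun j v => 2 * e i j (τ j v x))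
      (μ := volume) (a := s) (b := t) (fun j _ => (ii_orb (hτ j) (hem i j) (heb' i j) x s t).const_mul 2)
    have h6 : D = ∑ j : Fin m, fun v => 2 * e i j (τ j v x) := by
      ext v
      simp only [hD, Finset.sum_apply]
    rw [h6]
    exact h5
  -- continuous averages of `G`
  have hev3 : ∀ᶠ V : ℝ in atTop, ∀ j : Fin m, smo (τ j) (e i j) V x ≤
        ε + (μ[e i j | flowInv (τ j)]) x := by
    rw [Filter.eventually_all]
    intro j
    have h5 := (hx3 i j).eventually (gt_mem_nhds (show (μ[e i j | flowInv (τ j)]) x <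
      ε + (μ[e i j | flowInv (τ j)]) x by linarith))
    filter_upwards [h5] with N hN
    exact hN.le
  have hcont : ∀ᶠ V : ℝ in atTop, ‖(1 / (V : ℂ)) * (∫ v in (0 : ℝ)..V, G v) - L‖ ≤
      ε + 2 * (m * ε + Ψ i x) := by
    have h6 := (Metric.tendsto_nhds.1 hL) ε hε0
    filter_upwards [h6, hev3, eventually_gt_atTop (0 : ℝ)] with V hV1 hV2 hV0
    rw [dist_eq_norm] at hV1
    have e1 : (1 / (V : ℂ)) * (∫ v in (0 : ℝ)..V, G v) - L =
        ((1 / (V : ℂ)) * (∫ v in (0 : ℝ)..V, P v) - L) - (1 / (V : ℂ)) * (∫ v in (0 : ℝ)..V, (P v - G v)) := by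
      rw [intervalIntegral.integral_sub (hPi _ _) (hGi _ _)]
      ring
    rw [e1]
    refine (norm_sub_le _ _).trans (add_le_add hV1.le ?_)
    rw [norm_mul, norm_div, norm_one, Complex.norm_real, Real.norm_eq_abs, abs_of_pos hV0]
    have e2 : ‖∫ v in (0 : ℝ)..V, (P v - G v)‖ ≤ ∫ v in (0 : ℝ)..V, D v := by
      refine intervalIntegral.norm_integral_le_of_norm_le hV0.le ?_ (hDi _ _)
      exact ae_of_all _ fun v _ => hPG v
    refine (mul_le_mul_of_nonneg_left e2 (by positivity)).trans ?_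
    simp only [hD]
    rw [intervalIntegral.integral_finsetSum fun j _ =>
      (ii_orb (hτ j) (hem i j) (heb' i j) x 0 V).const_mul 2, Finset.mul_sum]
    calc ∑ j : Fin m, (1 / V) * ∫ v in (0 : ℝ)..V, 2 * e i j (τ j v x)
        = ∑ j : Fin m, 2 * smo (τ j) (e i j) V x := by
          refine Finset.sum_congr rfl fun j _ => ?_
          unfold smo
          rw [intervalIntegral.integral_const_mul]; ring
      _ ≤ ∑ j : Fin m, 2 * (ε + (μ[e i j | flowInv (τ j)]) x) :=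
          Finset.sum_le_sum fun j _ => mul_le_mul_of_nonneg_left (hV2 j) (by norm_num)
      _ = _ := by
          simp only [hΨ]
          rw [← Finset.mul_sum, Finset.sum_add_distrib]
          simp
  have hη0 : 0 ≤ ε + 2 * (m * ε + Ψ i x) := by positivity
  have hev2 := hR a ha0' G (hGcont i) (hGone i) L _ hη0 hcont ε hε0
  have hev1 := (Metric.tendsto_nhds.1 (ha1 i)) ε hε0
  have hev4 : ∀ᶠ N : ℕ in atTop, ∀ j : Fin m, (1 / (N : ℝ)) * ∑ n ∈ Icc 1 N, e i j (τ j (a * p n) x) ≤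
        ε + K ε * (μ[e i j | flowInv (τ j)]) x := by
    rw [Filter.eventually_all]
    intro j
    exact ha2 i j ε hε0
  filter_upwards [hev1, hev2, hev4] with N hN1 hN2 hN4
  rw [dist_zero_right] at hN1
  rw [dist_eq_norm]
  have hsplit : (1 / (N : ℂ)) * ∑ n ∈ Icc 1 N, P (a * p n) - L =
      (1 / (N : ℂ)) * (∑ n ∈ Icc 1 N, G (a * p n) - ∫ v in (0 : ℝ)..N, G (a * p v)) +
      ((1 / (N : ℂ)) * (∫ v in (0 : ℝ)..N, G (a * p v)) - L) +
      (1 / (N : ℂ)) * ∑ n ∈ Icc 1 N, (P (a * p n) - G (a * p n)) := by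
    rw [Finset.sum_sub_distrib]
    ring
  show ‖(1 / (N : ℂ)) * ∑ n ∈ Icc 1 N, P (a * p n) - L‖ < ε'
  rw [hsplit]
  have hb1 : ‖(1 / (N : ℂ)) * ∑ n ∈ Icc 1 N, (P (a * p n) - G (a * p n))‖ ≤
      (1 / (N : ℝ)) * ∑ n ∈ Icc 1 N, D (a * p n) := by
    rw [norm_mul, norm_div, norm_one, Complex.norm_natCast]
    refine mul_le_mul_of_nonneg_left ?_ (by positivity)
    exact (norm_sum_le _ _).trans (Finset.sum_le_sum fun n _ => hPG _)
  have hb1' : (1 / (N : ℝ)) * ∑ n ∈ Icc 1 N, D (a * p n) ≤ 2 * (m * ε + K ε * Ψ i x) := by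
    simp only [hD]
    rw [Finset.sum_comm, Finset.mul_sum]
    calc ∑ j : Fin m, (1 / (N : ℝ)) * ∑ n ∈ Icc 1 N, 2 * e i j (τ j (a * p n) x)
        = ∑ j : Fin m, 2 * ((1 / (N : ℝ)) * ∑ n ∈ Icc 1 N, e i j (τ j (a * p n) x)) := by
          refine Finset.sum_congr rfl fun j _ => ?_
          rw [← Finset.mul_sum]; ring
      _ ≤ ∑ j : Fin m, 2 * (ε + K ε * (μ[e i j | flowInv (τ j)]) x) :=
          Finset.sum_le_sum fun j _ => mul_le_mul_of_nonneg_left (hN4 j) (by norm_num)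
      _ = _ := by
          simp only [hΨ]
          rw [← Finset.mul_sum, Finset.sum_add_distrib, ← Finset.mul_sum]
          simp
  have hfin : ε + (ε + K₀ * (ε + 2 * (m * ε + Ψ i x))) + 2 * (m * ε + K ε * Ψ i x) ≤ ε' / 4 + ε' / 4 := by
    have e1 : ε + (ε + K₀ * (ε + 2 * (m * ε + Ψ i x))) + 2 * (m * ε + K ε * Ψ i x) =
        (2 * m + 2 + K₀ + 2 * K₀ * m) * ε + 2 * (K ε + K₀) * Ψ i x := by ring
    have e2 : (2 * m + 2 + K₀ + 2 * K₀ * m) * ε ≤ R * ε := by
      apply mul_le_mul_of_nonneg_right _ hε0.le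
      rw [hRdef]
      linarith
    have e3 : R * ε = ε' / 4 := by
      rw [hε]; field_simp
    have e4 : 2 * (K ε + K₀) * Ψ i x ≤ Q * Ψ i x := by
      apply mul_le_mul_of_nonneg_right _ hΨx
      rw [hQ]; linarith
    rw [e1]; linarith
  calc _ ≤ ‖(1 / (N : ℂ)) * (∑ n ∈ Icc 1 N, G (a * p n) - ∫ v in (0 : ℝ)..N, G (a * p v))‖ +
      ‖(1 / (N : ℂ)) * (∫ v in (0 : ℝ)..N, G (a * p v)) - L‖ +
      ‖(1 / (N : ℂ)) * ∑ n ∈ Icc 1 N, (P (a * p n) - G (a * p n))‖ :=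
        (norm_add_le _ _).trans (add_le_add (norm_add_le _ _) le_rfl)
    _ ≤ ε + (ε + K₀ * (ε + 2 * (m * ε + Ψ i x))) + 2 * (m * ε + K ε * Ψ i x) :=
        add_le_add (add_le_add hN1.le hN2) (hb1.trans hb1')
    _ < ε' := by linarith

theorem pti (h1 : S_DETG) (h2 : S_REGC) (h3 : S_FLW2.{u}) (h4 : S_FLWB.{u})
    (h5 : ∀ p : ℝ → ℝ, Adm p → Good (fun n : ℕ => p n)) : S_PTI.{u} := by
  intro p hp hpm X _ μ _ m τ f hτ hf hfb
  obtain ⟨C', hC'⟩ := hfb
  set C : ℝ := |C'| + 1 with hCdef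
  have hC0 : 0 < C := by positivity
  have hC : ∀ j x, ‖f j x‖ ≤ C := fun j x => (hC' j x).trans ((le_abs_self _).trans (by linarith))
  have hmain := coreP h1 h2 h3 h4 h5 p hp hpm X μ m τ (fun j x => f j x / C) hτ
    (fun j => (hf j).div_const _)
    (fun j x => by
      rw [norm_div, Complex.norm_real, Real.norm_eq_abs, abs_of_pos hC0, div_le_one hC0]
      exact hC j x)
  filter_upwards [hmain] with x hx
  filter_upwards [hx] with a ha
  intro L hL
  have hCc : (C : ℂ) ≠ 0 := by exact_mod_cast hC0.ne'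
  have hCm : (C : ℂ) ^ m ≠ 0 := pow_ne_zero _ hCc
  have hprod : ∀ v : ℝ, ∏ j, (f j (τ j v x) / C) = (∏ j, f j (τ j v x)) / (C : ℂ) ^ m := by
    intro v
    rw [Finset.prod_div_distrib]
    simp
  have h6 := ha (L / (C : ℂ) ^ m) (by
    simp only [hprod, intervalIntegral.integral_div]
    refine (hL.div_const ((C : ℂ) ^ m)).congr fun V => ?_
    ring)
  have h7 := h6.mul_const ((C : ℂ) ^ m)
  rw [div_mul_cancel₀ _ hCm] at h7
  refine h7.congr fun N => ?_
  simp only [hprod]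
  rw [← Finset.sum_div, mul_assoc, div_mul_cancel₀ _ hCm]

end Pool.Agent.Y256.MC
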